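import Mathlib

namespace Pool.Agent.Results.MP_faa006_lc.NotDefinable

universe u

inductive Tm : Type
  | var : ℕ → Tm
  | zero : Tm
  | one : Tm
  | bot : Tm
  | neg : Tm → Tm
  | add : Tm → Tm → Tm
  | mul : Tm → Tm → Tm
  | div : Tm → Tm → Tm

open Classical in
noncomputable def Tm.eval {R : Type u} [CommRing R] (ρ : ℕ → Option R) : Tm → Option R
  | .var n => ρ n
  | .zero => some 0
  | .one => some 1
  | .bot => none
  | .neg s => (s.eval ρ).map fun a => -a
  | .add s t => (s.eval ρ).bind fun a => (t.eval ρ).map fun b => a + b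
  | .mul s t => (s.eval ρ).bind fun a => (t.eval ρ).map fun b => a * b
  | .div s t => (s.eval ρ).bind fun a => (t.eval ρ).bind fun b =>
      if IsUnit b then some (a * Ring.inverse b) else none

structure Cond where
  hyps : List (Tm × Tm)
  lhs : Tm
  rhs : Tm

def Holds (R : Type u) [CommRing R] (φ : Cond) : Prop :=
  ∀ ρ : ℕ → Option R, (∀ e ∈ φ.hyps, e.1.eval ρ = e.2.eval ρ) → φ.lhs.eval ρ = φ.rhs.eval ρ

lemma eval_map {R D : Type} [CommRing R] [CommRing D] (f : R →+* D)
    (hf : ∀ a, IsUnit (f a) → IsUnit a) (ρ : ℕ → Option R) (t : Tm) :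
    t.eval (fun n => (ρ n).map f) = (t.eval ρ).map f := by
  induction t with
  | var n => rfl
  | zero => simp [Tm.eval]
  | one => simp [Tm.eval]
  | bot => simp [Tm.eval]
  | neg s ih => simp only [Tm.eval, ih]; cases s.eval ρ <;> simp
  | add s t h1 h2 => simp only [Tm.eval, h1, h2]; cases s.eval ρ <;> cases t.eval ρ <;> simp
  | mul s t h1 h2 => simp only [Tm.eval, h1, h2]; cases s.eval ρ <;> cases t.eval ρ <;> simp
  | div s t h1 h2 =>
    simp only [Tm.eval, h1, h2]
    rcases s.eval ρ with _ | a <;> rcases t.eval ρ with _ | b <;> simp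
    by_cases hb : IsUnit b
    · obtain ⟨u, rfl⟩ := hb
      have : f u = (Units.map (f : R →* D) u : D) := rfl
      rw [if_pos (u.isUnit.map f), if_pos u.isUnit, this, Ring.inverse_unit, Ring.inverse_unit]
      simp
    · rw [if_neg hb, if_neg fun h => hb (hf b h)]

open PowerSeries

noncomputable def S : Subring (ℚ⟦X⟧ × ℚ⟦X⟧) :=
  RingHom.eqLocus ((constantCoeff (R := ℚ)).comp (RingHom.fst _ _))
    ((constantCoeff (R := ℚ)).comp (RingHom.snd _ _))

lemma unit_of (a : S) (h : constantCoeff a.1.1 ≠ 0) : IsUnit a := by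
  have h0 : constantCoeff a.1.1 = constantCoeff a.1.2 := a.2
  refine IsUnit.of_mul_eq_one ⟨(a.1.1⁻¹, a.1.2⁻¹), ?_⟩ ?_
  · show constantCoeff a.1.1⁻¹ = constantCoeff a.1.2⁻¹
    rw [constantCoeff_inv, constantCoeff_inv, h0]
  · apply Subtype.ext
    apply Prod.ext
    · exact PowerSeries.mul_inv_cancel _ h
    · exact PowerSeries.mul_inv_cancel _ (h0 ▸ h)

theorem result : ∃ (R : Type) (_ : CommRing R), Nontrivial R ∧
    (∃ a b : R, a ≠ 0 ∧ b ≠ 0 ∧ a * b = 0) ∧
    ∀ φ : Cond, (∀ (D : Type) [CommRing D] [IsDomain D], Holds D φ) → Holds R φ := by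
  refine ⟨S, inferInstance, inferInstance, ⟨⟨(X, 0), ?_⟩, ⟨(0, X), ?_⟩, ?_, ?_, ?_⟩, ?_⟩
  · show constantCoeff X = constantCoeff (0 : ℚ⟦X⟧); simp
  · show constantCoeff (0 : ℚ⟦X⟧) = constantCoeff X; simp
  · intro h; exact X_ne_zero (congrArg (fun a : S => a.1.1) h)
  · intro h; exact X_ne_zero (congrArg (fun a : S => a.1.2) h)
  · apply Subtype.ext; apply Prod.ext <;> simp
  · intro φ hφ ρ hρ
    have key : ∀ f : S →+* ℚ⟦X⟧, (∀ a, IsUnit (f a) → IsUnit a) →
        (φ.lhs.eval ρ).map f = (φ.rhs.eval ρ).map f := by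
      intro f hf
      rw [← eval_map f hf, ← eval_map f hf]
      exact hφ _ _ fun e he => by rw [eval_map f hf, eval_map f hf, hρ e he]
    have h1 := key ((RingHom.fst _ _).comp S.subtype) fun a ha =>
      unit_of a (isUnit_iff_constantCoeff.1 ha).ne_zero
    have h2 := key ((RingHom.snd _ _).comp S.subtype) fun a ha =>
      unit_of a (by
        have h0 : constantCoeff a.1.1 = constantCoeff a.1.2 := a.2
        rw [h0]; exact (isUnit_iff_constantCoeff.1 ha).ne_zero)
    revert h1 h2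
    rcases φ.lhs.eval ρ with _ | a <;> rcases φ.rhs.eval ρ with _ | b <;> simp
    intro h1 h2
    exact Subtype.ext (Prod.ext h1 h2)

end Pool.Agent.Results.MP_faa006_lc.NotDefinable
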